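import Pool.Agent.N718.LL.TaskF1b

/-!
# LL/12: an explicit cusp form on `GL_2(A)`, `F_2(t)`, level `(t)^2 ∞`: conclusion
-/

open scoped WithZero Polynomial MatrixGroups Topology
open IsDedekindDomain RestrictedProduct

noncomputable section

namespace N718LL

open N589LL

variable (hG : TaskGlob)

lemma wm_int {F : Type} [Field F] (v : Valuation F ℤᵐ⁰) : (wm : GL (Fin 2) F) ∈ glInt v := by
  have h : (wm : GL (Fin 2) F).val = !![0, 1; 1, 0] := rfl
  refine glInt_of_det _ ?_ ?_
  · intro i j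
    rw [h]
    fin_cases i <;> fin_cases j <;> simp
  · rw [h, Matrix.det_fin_two_of]; simp [Valuation.map_neg]

include hG in
/-- if some translate by `κ ∈ GL_2(O_∞)` is in the support then the values are, up to a common
factor, those at `k κ'`. -/
lemma support_form {y : GA} {κ : Gv none} (hκ : κ ∈ Cv none) {s : ℂ} {γ : GL (Fin 2) K} {j : ℤ}
    (h : Wit (y * sing none κ) s γ j) :
    ∃ k ∈ Cv none, ∃ c : ℂ, ∀ κ' : Gv none,
      f1 (y * sing none κ') = c * f1 (sing none (k * κ')) := by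
  set k : Gv none := glIncl none γ * y none with hk
  have hkκ : k * κ ∈ Iw (val none) := by
    have := h.inf
    rwa [RestrictedProduct.mul_apply, sing_same, ← mul_assoc] at this
  have hkC : k ∈ Cv none := by
    have := mul_mem hkκ.1 (inv_mem hκ)
    rwa [mul_inv_cancel_right] at this
  have hw : eta0 ^ j * (glIncl z0 γ * y z0) ∈ I0 (val z0) := by
    have := h.zer
    rwa [RestrictedProduct.mul_apply, sing_ne _ (by simp), mul_one] at this
  set u : GA := (sing none k)⁻¹ * (diag γ * y) * sing z0 (eta0 ^ j) with hu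
  have hun : u none = 1 := by
    rw [hu, RestrictedProduct.mul_apply, RestrictedProduct.mul_apply, RestrictedProduct.mul_apply,
      RestrictedProduct.inv_apply, sing_same, diag_apply, sing_ne _ (by simp), mul_one, hk]
    group
  have hu0 : u z0 = eta0 ^ (-j) * (eta0 ^ j * (glIncl z0 γ * y z0)) * eta0 ^ (-(-j)) := by
    rw [hu, RestrictedProduct.mul_apply, RestrictedProduct.mul_apply, RestrictedProduct.mul_apply,
      RestrictedProduct.inv_apply, sing_same, diag_apply, sing_ne _ (by simp)]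
    group
  have hc := conj_zpow_mem (val z0) (tau z0) val_tau_z0 (-j) hw
  have huv : ∀ v, v ≠ none → v ≠ z0 → u v = glIncl v γ * y v := by
    intro v h1 h2
    rw [hu, RestrictedProduct.mul_apply, RestrictedProduct.mul_apply, RestrictedProduct.mul_apply,
      RestrictedProduct.inv_apply, sing_ne _ h1, diag_apply, sing_ne _ h2]
    group
  have hU : InU u := by
    refine ⟨fun v => ?_, by rw [hun]; exact one_mem _, by rw [hu0]; exact hc.1⟩
    by_cases h1 : v = none
    · subst h1; rw [hun]; exact one_mem _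
    · by_cases h2 : v = z0
      · subst h2; rw [hu0]; exact hc.1.1
      · rw [huv v h1 h2]
        have := h.fin v h2
        rwa [RestrictedProduct.mul_apply, sing_ne _ h1, mul_one] at this
  refine ⟨k, hkC, (-1) ^ (-j) * ph (u z0), fun κ' => ?_⟩
  have e : diag γ * (y * sing none κ') = sing none (k * κ') * u * sing z0 (eta0 ^ (-j)) := by
    ext v : 1
    simp only [RestrictedProduct.mul_apply]
    by_cases h1 : v = none
    · subst h1
      rw [hun, sing_same, sing_same, sing_ne _ (by simp), diag_apply, hk]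
      group
    · by_cases h2 : v = z0
      · subst h2
        rw [hu0, sing_same, sing_ne _ (by simp), sing_ne _ (by simp), diag_apply]
        group
      · rw [huv v h1 h2, sing_ne _ h1, sing_ne _ h1, sing_ne _ h2, diag_apply]
        group
  rw [← f1_left hG γ (y * sing none κ'), e, f1_eta0_zpow hG, f1_right hG hU]
  ring

include hG in
lemma f1_sum (y : GA) : f1 y + f1 (y * sing none wm) + f1 (y * sing none (lwr 1)) = 0 := by
  have hwm : (wm : Gv none) ∈ Cv none := wm_int _
  have hl : (lwr 1 : Gv none) ∈ Cv none := lwr_int _ (by simp)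
  have main : (∃ κ ∈ Cv none, ∃ s γ j, Wit (y * sing none κ) s γ j) →
      f1 y + f1 (y * sing none wm) + f1 (y * sing none (lwr 1)) = 0 := by
    rintro ⟨κ, hκ, s, γ, j, h⟩
    obtain ⟨k, hk, c, hc⟩ := support_form hG hκ h
    have h1 := hc 1
    rw [map_one, mul_one, mul_one] at h1
    rw [h1, hc, hc, ← mul_add, ← mul_add, F_sum hG hk, mul_zero]
  by_cases h1 : ∃ s γ j, Wit y s γ j
  · obtain ⟨s, γ, j, h⟩ := h1
    exact main ⟨1, one_mem _, s, γ, j, by rwa [map_one, mul_one]⟩
  · by_cases h2 : ∃ s γ j, Wit (y * sing none wm) s γ j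
    · exact main ⟨wm, hwm, h2⟩
    · by_cases h3 : ∃ s γ j, Wit (y * sing none (lwr 1)) s γ j
      · exact main ⟨lwr 1, hl, h3⟩
      · rw [f1_zero h1, f1_zero h2, f1_zero h3]; norm_num

include hG in
lemma f1_special : Special (val none) rhoInf piInf f1 where
  iw := fun g hg => funext fun x => f1_Iw hG hg x
  sca := fun z => funext fun x => f1_sca hG z x
  eta := by
    rw [← tau_none]
    exact funext fun x => f1_eta_inf hG x
  sum := funext fun x => f1_sum hG x

/-! ### cuspidality -/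

lemma upr_add {R : Type} [CommRing R] (a b : R) : (upr (a + b) : GL (Fin 2) R) = upr a * upr b := by
  ext i j
  have h : ∀ z : R, (upr z).val = !![1, z; 0, 1] := fun _ => rfl
  rw [Units.val_mul, h, h, h, Matrix.mul_fin_two]
  fin_cases i <;> fin_cases j <;> simp [add_comm]

lemma upr_zero {R : Type} [CommRing R] : (upr (0 : R) : GL (Fin 2) R) = 1 := by
  ext i j
  have h : ∀ z : R, (upr z).val = !![1, z; 0, 1] := fun _ => rfl
  rw [h]
  fin_cases i <;> fin_cases j <;> simp

lemma nA_add (x y : Adele) : nA (x + y) = nA x * nA y := by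
  ext v : 1
  rw [RestrictedProduct.mul_apply]
  exact upr_add _ _

/-- the exponent -/
lemma exists_exp {F : Type} [Field F] (v : Valuation F ℤᵐ⁰) (τ : Fˣ) (hτ : v τ = WithZero.exp 1)
    (c d : F) (h : c ≠ 0 ∨ d ≠ 0) : ∃ m : ℤ,
      v (c ^ 2 * (τ ^ m : Fˣ)) ≤ 1 ∧ v (d ^ 2 * (τ ^ m : Fˣ) * τ) ≤ 1 ∧
      (v (c ^ 2 * (τ ^ m : Fˣ)) < 1 ↔ ¬ v (d ^ 2 * (τ ^ m : Fˣ) * τ) < 1) := by
  have hm : ∀ m : ℤ, v ((τ ^ m : Fˣ) : F) = WithZero.exp m := by
    intro m
    rw [Units.val_zpow_eq_zpow_val, map_zpow₀, hτ, ← WithZero.exp_zsmul, smul_eq_mul, mul_one]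
  have hv : ∀ x : F, x ≠ 0 → ∃ n : ℤ, v x = WithZero.exp n := fun x hx =>
    ⟨WithZero.log (v x), (WithZero.exp_log ((Valuation.ne_zero_iff _).2 hx)).symm⟩
  have hsq : ∀ (x : F) (n m : ℤ), v x = WithZero.exp n →
      v (x ^ 2 * (τ ^ m : Fˣ)) = WithZero.exp (2 * n + m) := by
    intro x n m h
    rw [map_mul, map_pow, h, hm, ← WithZero.exp_nsmul, ← WithZero.exp_add]
    congr 1
  have hle : ∀ n : ℤ, (WithZero.exp n ≤ (1 : ℤᵐ⁰)) ↔ n ≤ 0 := fun n => by
    rw [← WithZero.exp_zero, WithZero.exp_le_exp]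
  have hlt : ∀ n : ℤ, (WithZero.exp n < (1 : ℤᵐ⁰)) ↔ n < 0 := fun n => by
    rw [← WithZero.exp_zero, WithZero.exp_lt_exp]
  by_cases hc : c = 0
  · subst hc
    have hd : d ≠ 0 := h.resolve_left (fun h => h rfl)
    obtain ⟨q, hq⟩ := hv d hd
    refine ⟨-2 * q - 1, ?_, ?_, ?_⟩
    · simp
    · rw [map_mul, hsq d q _ hq, hτ, ← WithZero.exp_add, hle]; omega
    · rw [map_mul _ _ (τ : F), hsq d q _ hq, hτ, ← WithZero.exp_add, hlt]
      simp
      omega
  · obtain ⟨p, hp⟩ := hv c hc
    by_cases hd : d = 0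
    · subst hd
      refine ⟨-2 * p, ?_, ?_, ?_⟩
      · rw [hsq c p _ hp, hle]; omega
      · simp
      · rw [hsq c p _ hp, hlt]
        simp
    · obtain ⟨q, hq⟩ := hv d hd
      refine ⟨min (-2 * p) (-2 * q - 1), ?_, ?_, ?_⟩
      · rw [hsq c p _ hp, hle]; omega
      · rw [map_mul, hsq d q _ hq, hτ, ← WithZero.exp_add, hle]; omega
      · rw [hsq c p _ hp, map_mul _ _ (τ : F), hsq d q _ hq, hτ, ← WithZero.exp_add, hlt, hlt]
        omega

include hG in
lemma exists_y0 (g : Gv z0) : ∃ y0 : Kv z0, g⁻¹ * upr y0 * g ∈ I0 (val z0) ∧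
    ph (g⁻¹ * upr y0 * g) = -1 := by
  obtain ⟨-, hr0, -, -⟩ := id hG
  set a := g.val 0 0
  set b := g.val 0 1
  set c := g.val 1 0 with hc
  set d := g.val 1 1 with hd
  have hg : g.val = !![a, b; c, d] := Matrix.eta_fin_two _
  have hdet : g.val.det = a * d - b * c := by rw [hg, Matrix.det_fin_two_of]
  have hdet0 : a * d - b * c ≠ 0 := by
    rw [← hdet]
    have : IsUnit g.val.det := by
      rw [← Matrix.isUnit_iff_isUnit_det]; exact g.isUnit
    exact this.ne_zero
  have hcd : c ≠ 0 ∨ d ≠ 0 := by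
    by_contra hcon
    push Not at hcon
    rw [hcon.1, hcon.2] at hdet0
    simp at hdet0
  obtain ⟨m, h1, h2, h3⟩ := exists_exp (val z0) (tau z0) val_tau_z0 c d hcd
  set T : Kv z0 := ((tau z0 ^ m : (Kv z0)ˣ) : Kv z0) with hT
  set y0 : Kv z0 := (a * d - b * c) * T with hy0
  have hval : (g⁻¹ * upr y0 * g).val = !![1 + c * d * T, d ^ 2 * T; -(c ^ 2 * T), 1 - c * d * T] := by
    have e : g.val * !![1 + c * d * T, d ^ 2 * T; -(c ^ 2 * T), 1 - c * d * T] =
        (upr y0).val * g.val := by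
      have hu : (upr y0).val = !![1, y0; 0, 1] := rfl
      rw [hu, hg, Matrix.mul_fin_two, Matrix.mul_fin_two, hy0]
      ext i j
      fin_cases i <;> fin_cases j <;> simp <;> ring
    rw [Units.val_mul, Units.val_mul, mul_assoc, ← e, ← mul_assoc, g.inv_mul, one_mul]
  have hlt : val z0 (d ^ 2 * T) < 1 := by
    have e : d ^ 2 * T = (↑(tau z0)⁻¹ : Kv z0) * (d ^ 2 * T * tau z0) := by
      have : (↑(tau z0)⁻¹ : Kv z0) * (tau z0 : Kv z0) = 1 := Units.inv_mul _
      linear_combination (-(d ^ 2 * T)) * this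
    rw [e]
    exact tau_inv_lt _ _ val_tau_z0 h2
  have hcdT : val z0 (c * d * T) < 1 := by
    by_contra hge
    push Not at hge
    have e : c * d * T * (c * d * T) = (c ^ 2 * T) * (d ^ 2 * T) := by ring
    have h5 : val z0 (c * d * T * (c * d * T)) < 1 := by
      rw [e, map_mul]
      exact lt_of_le_of_lt (mul_le_of_le_one_left' h1) hlt
    rw [map_mul] at h5
    exact absurd h5 (not_lt.2 (one_le_mul hge hge))
  refine ⟨y0, ⟨glInt_of_det _ ?_ ?_, ?_⟩, ?_⟩
  · intro i j
    rw [hval]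
    fin_cases i <;> fin_cases j
    · exact ((val z0).map_add _ _).trans (max_le (by simp) hcdT.le)
    · exact hlt.le
    · change val z0 (-(c ^ 2 * T)) ≤ 1
      rw [Valuation.map_neg]; exact h1
    · exact ((val z0).map_sub _ _).trans (max_le (by simp) hcdT.le)
  · rw [hval, Matrix.det_fin_two_of]
    have e : (1 + c * d * T) * (1 - c * d * T) - d ^ 2 * T * -(c ^ 2 * T) = 1 := by ring
    rw [e, map_one]
  · rw [hval]; exact hlt
  · have e1 : (g⁻¹ * upr y0 * g).val 1 0 = -(c ^ 2 * T) := by rw [hval]; rfl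
    have e2 : (g⁻¹ * upr y0 * g).val 0 1 = d ^ 2 * T := by rw [hval]; rfl
    rw [ph, phi, e1, e2]
    unfold psi
    rw [Valuation.map_neg]
    by_cases h6 : val z0 (c ^ 2 * T) < 1
    · rw [if_pos h6, if_neg (h3.1 h6)]; norm_num
    · rw [if_neg h6, if_pos (by by_contra h7; exact h6 (h3.2 h7))]; norm_num

include hG in
lemma f1_cusp (g : GA) : ∃ y : Adele, ∀ x : Adele, f1 (nA (x + y) * g) = - f1 (nA x * g) := by
  classical
  obtain ⟨y0, hy0, hy1⟩ := exists_y0 hG (g z0)
  set y : Adele := RestrictedProduct.single Ov z0 y0 with hy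
  have hys : y z0 = y0 := RestrictedProduct.single_eq_same ..
  have hyn : ∀ v, v ≠ z0 → y v = 0 := fun v hv => RestrictedProduct.single_eq_of_ne _ _ hv
  refine ⟨y, fun x => ?_⟩
  set u : GA := g⁻¹ * nA y * g with hu
  have e : nA (x + y) * g = nA x * g * u := by
    rw [nA_add, hu]; group
  have hu0 : u z0 = (g z0)⁻¹ * upr y0 * g z0 := by
    rw [hu, RestrictedProduct.mul_apply, RestrictedProduct.mul_apply, RestrictedProduct.inv_apply]
    change (g z0)⁻¹ * upr (y z0) * g z0 = _
    rw [hys]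
  have huv : ∀ v, v ≠ z0 → u v = 1 := by
    intro v hv
    rw [hu, RestrictedProduct.mul_apply, RestrictedProduct.mul_apply, RestrictedProduct.inv_apply]
    change (g v)⁻¹ * upr (y v) * g v = _
    rw [hyn v hv, upr_zero]; group
  have hU : InU u := by
    refine ⟨fun v => ?_, ?_, ?_⟩
    · by_cases hv : v = z0
      · subst hv; rw [hu0]; exact hy0.1
      · rw [huv v hv]; exact one_mem _
    · rw [huv none (by simp)]; exact one_mem _
    · rw [hu0]; exact hy0
  rw [e, f1_right hG hU, hu0, hy1]; ring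

/-! ### smoothness -/

/-- the local open subgroups -/
def Hloc : (v : Place) → Subgroup (Gv v) := by
  classical
  exact fun v => match v with
    | none => Iw (val none)
    | some v => if v = p0 then Km (val (some v)) 2 else Cv (some v)

lemma Hloc_none : Hloc none = Iw (val none) := rfl

lemma Hloc_z0 : Hloc z0 = Km (val z0) 2 := by
  unfold Hloc; simp

lemma Hloc_ne {v : Place} (h1 : v ≠ none) (h2 : v ≠ z0) : Hloc v = Cv v := by
  rcases v with _ | v
  · exact absurd rfl h1
  · have : v ≠ p0 := fun h => h2 (by rw [h])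
    unfold Hloc; simp [this]

lemma Hloc_le (v : Place) : Hloc v ≤ Cv v := by
  by_cases h1 : v = none
  · subst h1; rw [Hloc_none]; exact fun x hx => hx.1
  · by_cases h2 : v = z0
    · subst h2; rw [Hloc_z0]; exact fun x hx => hx.1
    · rw [Hloc_ne h1 h2]

/-- the open subgroup fixing `f1` -/
def Uopen : Subgroup GA where
  carrier := {g | ∀ v, g v ∈ Hloc v}
  mul_mem' := by
    intro a b ha hb v
    rw [RestrictedProduct.mul_apply]; exact mul_mem (ha v) (hb v)
  one_mem' := fun v => by rw [RestrictedProduct.one_apply]; exact one_mem _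
  inv_mem' := by
    intro a ha v
    rw [RestrictedProduct.inv_apply]; exact inv_mem (ha v)

lemma Uopen_isOpen (hGl : TaskGl) (hGA : TaskGA) : IsOpen (Uopen : Set GA) := by
  refine hGA.2.2.2 Hloc (fun v => ?_) Hloc_le ?_
  · obtain ⟨h1, -, -, h4, h5⟩ := hGl v
    by_cases h1' : v = none
    · subst h1'; rw [Hloc_none]; exact h5
    · by_cases h2 : v = z0
      · subst h2; rw [Hloc_z0]; exact h1 2
      · rw [Hloc_ne h1' h2]; exact h4
  · refine (Set.toFinite {none, z0}).subset ?_
    intro v hv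
    by_contra hcon
    simp only [Set.mem_insert_iff, Set.mem_singleton_iff, not_or] at hcon
    exact hv (Hloc_ne hcon.1 hcon.2)

lemma Uopen_InU {u : GA} (hu : u ∈ Uopen) : InU u ∧ ph (u z0) = 1 := by
  have h0 : u z0 ∈ Km (val z0) 2 := by have := hu z0; rwa [Hloc_z0] at this
  have h01 : val z0 ((u z0).val 0 1) ≤ WithZero.exp (-2) := by
    have := h0.2 0 1
    simpa [Matrix.sub_apply, Matrix.one_apply] using this
  have h10 : val z0 ((u z0).val 1 0) ≤ WithZero.exp (-2) := by
    have := h0.2 1 0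
    simpa [Matrix.sub_apply, Matrix.one_apply] using this
  have hlt : WithZero.exp (-2 : ℤ) < (1 : ℤᵐ⁰) := by
    rw [← WithZero.exp_zero, WithZero.exp_lt_exp]; norm_num
  refine ⟨⟨fun v => Hloc_le v (hu v), hu none, h0.1, lt_of_le_of_lt h01 hlt⟩, ?_⟩
  rw [ph, phi]
  unfold psi
  rw [if_pos (lt_of_le_of_lt h10 hlt), if_pos, mul_one]
  rw [map_mul, val_tau_z0]
  refine lt_of_le_of_lt (mul_le_mul_left h01 _) ?_
  rw [← WithZero.exp_add, ← WithZero.exp_zero, WithZero.exp_lt_exp]; norm_num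

end N718LL

open N718LL in
theorem N589LL.TaskF1_proof (hG : N589LL.TaskGlob) (hGl : N589LL.TaskGl) (hGA : N589LL.TaskGA) :
    N589LL.TaskF1 := by
  refine ⟨f1, f1_one hG, f1_left hG, ⟨Uopen, Uopen_isOpen hGl hGA, fun u hu g => ?_⟩,
    f1_special hG, f1_cusp hG⟩
  obtain ⟨h1, h2⟩ := Uopen_InU hu
  rw [f1_right hG h1, h2, one_mul]
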