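import Pool.Agent.N589.LL.Tasks

/-!
# LL/12, local part: the affine generic character of the lower triangular Iwahori subgroup
-/

open scoped WithZero Polynomial MatrixGroups Topology
open IsDedekindDomain RestrictedProduct

noncomputable section

namespace N718LL

open N589LL

section loc

variable {F : Type} [Field F] (v : Valuation F ℤᵐ⁰)

lemma det_unit {g : GL (Fin 2) F} (hg : g ∈ glInt v) : v (g.val.det) = 1 := by
  have h1 : v g.val.det ≤ 1 := by
    rw [Matrix.det_fin_two]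
    refine (v.map_sub _ _).trans (max_le ?_ ?_) <;> rw [map_mul] <;>
      exact mul_le_one' (hg.1 _ _) (hg.1 _ _)
  have h2 : v g⁻¹.val.det ≤ 1 := by
    rw [Matrix.det_fin_two]
    refine (v.map_sub _ _).trans (max_le ?_ ?_) <;> rw [map_mul] <;>
      exact mul_le_one' (hg.2 _ _) (hg.2 _ _)
  have h3 : v g.val.det * v g⁻¹.val.det = 1 := by
    rw [← map_mul, ← Matrix.det_mul, g.mul_inv, Matrix.det_one, map_one]
  refine le_antisymm h1 ?_
  by_contra hlt
  push Not at hlt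
  have h0 : v g⁻¹.val.det ≠ 0 := by
    intro h; rw [h, mul_zero] at h3; exact zero_ne_one h3
  have : v g.val.det * v g⁻¹.val.det < 1 := by
    calc v g.val.det * v g⁻¹.val.det ≤ v g.val.det * 1 := mul_le_mul_right h2 _
      _ < 1 := by rwa [mul_one]
  rw [h3] at this
  exact lt_irrefl _ this

/-- matrices with entries in `O` and unit determinant are in `GL_2(O)`. -/
lemma glInt_of_det {g : GL (Fin 2) F} (h : ∀ i j, v (g.val i j) ≤ 1) (hd : v g.val.det = 1) :
    g ∈ glInt v := by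
  refine ⟨h, fun i j => ?_⟩
  have e : g⁻¹.val = g.val.det⁻¹ • g.val.adjugate := by
    rw [Matrix.coe_units_inv, Matrix.inv_def, Ring.inverse_eq_inv']
  rw [e, Matrix.smul_apply, smul_eq_mul, map_mul, map_inv₀, hd, inv_one, one_mul,
    Matrix.adjugate_fin_two]
  fin_cases i <;> fin_cases j <;> simp [Valuation.map_neg, h]

/-- The lower triangular Iwahori subgroup. -/
def I0 : Subgroup (GL (Fin 2) F) where
  carrier := {g | g ∈ glInt v ∧ v (g.val 0 1) < 1}
  mul_mem' := by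
    rintro a b ⟨ha, ha'⟩ ⟨hb, hb'⟩
    refine ⟨mul_mem ha hb, ?_⟩
    rw [Units.val_mul, Matrix.mul_apply, Fin.sum_univ_two]
    refine lt_of_le_of_lt (v.map_add _ _) (max_lt ?_ ?_)
    · rw [map_mul]
      exact lt_of_le_of_lt (mul_le_of_le_one_left' (ha.1 0 0)) hb'
    · rw [map_mul]
      exact lt_of_le_of_lt (mul_le_of_le_one_right' (hb.1 1 1)) ha'
  one_mem' := ⟨one_mem _, by simp⟩
  inv_mem' := by
    rintro a ⟨ha, ha'⟩
    refine ⟨inv_mem ha, ?_⟩
    have e : a⁻¹.val = a.val.det⁻¹ • a.val.adjugate := by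
      rw [Matrix.coe_units_inv, Matrix.inv_def, Ring.inverse_eq_inv']
    rw [e, Matrix.smul_apply, smul_eq_mul, map_mul, map_inv₀, det_unit v ha, inv_one, one_mul,
      Matrix.adjugate_fin_two]
    simpa [Valuation.map_neg] using ha'

lemma I0_diag {g : GL (Fin 2) F} (hg : g ∈ I0 v) : v (g.val 0 0) = 1 ∧ v (g.val 1 1) = 1 := by
  obtain ⟨h, h'⟩ := hg
  have hd := det_unit v h
  rw [Matrix.det_fin_two] at hd
  have h1 : v (g.val 0 1 * g.val 1 0) < 1 := by
    rw [map_mul]; exact lt_of_le_of_lt (mul_le_of_le_one_right' (h.1 1 0)) h'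
  have h2 : v (g.val 0 0 * g.val 1 1) = 1 := by
    have e : g.val 0 0 * g.val 1 1 = (g.val 0 0 * g.val 1 1 - g.val 0 1 * g.val 1 0) +
      g.val 0 1 * g.val 1 0 := by ring
    rw [e, Valuation.map_add_eq_of_lt_left v (by rwa [hd]), hd]
  rw [map_mul] at h2
  constructor
  · refine le_antisymm (h.1 0 0) ?_
    rw [← h2]; exact mul_le_of_le_one_right' (h.1 1 1)
  · refine le_antisymm (h.1 1 1) ?_
    rw [← h2]; exact mul_le_of_le_one_left' (h.1 0 0)

open Classical in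
/-- The additive character `x ↦ (-1)^(x mod 𝔪)` of `O`. -/
def psi (x : F) : ℂ := if v x < 1 then 1 else -1

lemma psi_mul_unit {u : F} (hu : v u = 1) (x : F) : psi v (u * x) = psi v x := by
  simp [psi, hu]

lemma psi_mul_unit' {u : F} (hu : v u = 1) (x : F) : psi v (x * u) = psi v x := by
  simp [psi, hu]

lemma psi_sq (x : F) : psi v x * psi v x = 1 := by
  unfold psi; split_ifs <;> norm_num

variable (hres : ∀ x, v x ≤ 1 → v x < 1 ∨ v (x - 1) < 1)

include hres in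
lemma psi_add {x y : F} (hx : v x ≤ 1) (hy : v y ≤ 1) : psi v (x + y) = psi v x * psi v y := by
  have h2 : v (2 : F) < 1 := by
    rcases hres 2 (by
      have : (2 : F) = 1 + 1 := by norm_num
      rw [this]; exact (v.map_add _ _).trans (by simp)) with h | h
    · exact h
    · have : (2 : F) - 1 = 1 := by norm_num
      rw [this, map_one] at h; exact absurd h (lt_irrefl _)
  unfold psi
  by_cases hx1 : v x < 1 <;> by_cases hy1 : v y < 1
  · have : v (x + y) < 1 := lt_of_le_of_lt (v.map_add _ _) (max_lt hx1 hy1)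
    simp [hx1, hy1, this]
  · have hy2 : v y = 1 := le_antisymm hy (not_lt.1 hy1)
    have : v (x + y) = 1 := by
      rw [Valuation.map_add_eq_of_lt_right v (by rwa [hy2]), hy2]
    simp [hx1, hy1, this]
  · have hx2 : v x = 1 := le_antisymm hx (not_lt.1 hx1)
    have : v (x + y) = 1 := by
      rw [Valuation.map_add_eq_of_lt_left v (by rwa [hx2]), hx2]
    simp [hx1, hy1, this]
  · have hx3 := (hres x hx).resolve_left hx1
    have hy3 := (hres y hy).resolve_left hy1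
    have : v (x + y) < 1 := by
      have e : x + y = (x - 1) + (y - 1) + 2 := by ring
      rw [e]
      exact lt_of_le_of_lt (v.map_add _ _) (max_lt (lt_of_le_of_lt (v.map_add _ _)
        (max_lt hx3 hy3)) h2)
    simp [hx1, hy1, this]

/-- The affine generic character of `I0`. -/
def phi (τ : Fˣ) (g : GL (Fin 2) F) : ℂ := psi v (g.val 1 0) * psi v (g.val 0 1 * τ)

variable (τ : Fˣ) (hτ : v τ = WithZero.exp 1)

include hτ in
lemma le_of_lt_tau {x : F} (hx : v x < 1) : v (x * τ) ≤ 1 := by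
  by_cases h0 : v x = 0
  · rw [map_mul, h0, zero_mul]; exact zero_le'
  · rw [map_mul, hτ]
    obtain ⟨n, hn⟩ : ∃ n : ℤ, v x = WithZero.exp n := ⟨WithZero.log (v x), (WithZero.exp_log h0).symm⟩
    rw [hn] at hx ⊢
    rw [← WithZero.exp_zero, WithZero.exp_lt_exp] at hx
    rw [← WithZero.exp_add, ← WithZero.exp_zero, WithZero.exp_le_exp]
    omega

include hres hτ in
lemma phi_mul {g h : GL (Fin 2) F} (hg : g ∈ I0 v) (hh : h ∈ I0 v) :
    phi v τ (g * h) = phi v τ g * phi v τ h := by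
  obtain ⟨hga, hgd⟩ := I0_diag v hg
  obtain ⟨hha, hhd⟩ := I0_diag v hh
  unfold phi
  rw [Units.val_mul, Matrix.mul_apply, Matrix.mul_apply, Fin.sum_univ_two, Fin.sum_univ_two]
  have hb1 := le_of_lt_tau v τ hτ hg.2
  have hb2 := le_of_lt_tau v τ hτ hh.2
  rw [psi_add v hres, psi_mul_unit' v hha, psi_mul_unit v hgd]
  · have e : (g.val 0 0 * h.val 0 1 + g.val 0 1 * h.val 1 1) * (τ : F) =
      g.val 0 0 * (h.val 0 1 * τ) + (g.val 0 1 * τ) * h.val 1 1 := by ring
    rw [e, psi_add v hres, psi_mul_unit v hga, psi_mul_unit' v hhd]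
    · ring
    · rw [map_mul, hga, one_mul]; exact hb2
    · rw [map_mul, hhd, mul_one]; exact hb1
  · rw [map_mul, hha, mul_one]; exact hg.1.1 1 0
  · rw [map_mul, hgd, one_mul]; exact hh.1.1 1 0

lemma phi_one : phi v τ 1 = 1 := by simp [phi, psi]

include hres hτ in
lemma phi_inv {g : GL (Fin 2) F} (hg : g ∈ I0 v) : phi v τ g⁻¹ = phi v τ g := by
  have h1 := phi_mul v hres τ hτ hg (inv_mem hg)
  rw [mul_inv_cancel, phi_one] at h1
  have h2 : phi v τ g * phi v τ g = 1 := by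
    unfold phi
    calc _ = (psi v (g.val 1 0) * psi v (g.val 1 0)) *
        (psi v (g.val 0 1 * τ) * psi v (g.val 0 1 * τ)) := by ring
      _ = 1 := by rw [psi_sq, psi_sq, one_mul]
  calc phi v τ g⁻¹ = (phi v τ g * phi v τ g) * phi v τ g⁻¹ := by rw [h2, one_mul]
    _ = phi v τ g * (phi v τ g * phi v τ g⁻¹) := by ring
    _ = phi v τ g := by rw [← h1, mul_one]

lemma phi_sq (g : GL (Fin 2) F) : phi v τ g * phi v τ g = 1 := by
  unfold phi
  calc _ = (psi v (g.val 1 0) * psi v (g.val 1 0)) *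
      (psi v (g.val 0 1 * τ) * psi v (g.val 0 1 * τ)) := by ring
    _ = 1 := by rw [psi_sq, psi_sq, one_mul]

lemma eta_conj_val (g : GL (Fin 2) F) : ((eta τ)⁻¹ * g * eta τ).val =
    !![g.val 1 1, (↑τ⁻¹ : F) * g.val 1 0; g.val 0 1 * τ, g.val 0 0] := by
  have h1 : (eta τ)⁻¹.val = !![0, (↑τ⁻¹ : F); 1, 0] := rfl
  have h2 : (eta τ).val = !![0, 1; (τ : F), 0] := rfl
  have h3 : (↑τ⁻¹ : F) * τ = 1 := by simp
  rw [Units.val_mul, Units.val_mul, h1, h2, Matrix.eta_fin_two g.val, Matrix.mul_fin_two,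
    Matrix.mul_fin_two]
  ext i j
  fin_cases i <;> fin_cases j
  · simp only [Matrix.of_apply, Matrix.cons_val', Matrix.cons_val_zero, Matrix.cons_val_one]
    simp only [Fin.zero_eta, Fin.isValue, Matrix.cons_val_zero, Matrix.cons_val_fin_one]
    linear_combination (g.val 1 1) * h3
  · simp
  · simp
  · simp

lemma eta_conj_val' (g : GL (Fin 2) F) : (eta τ * g * (eta τ)⁻¹).val =
    !![g.val 1 1, (↑τ⁻¹ : F) * g.val 1 0; g.val 0 1 * τ, g.val 0 0] := by
  have h1 : (eta τ)⁻¹.val = !![0, (↑τ⁻¹ : F); 1, 0] := rfl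
  have h2 : (eta τ).val = !![0, 1; (τ : F), 0] := rfl
  have h3 : (↑τ⁻¹ : F) * τ = 1 := by simp
  rw [Units.val_mul, Units.val_mul, h1, h2, Matrix.eta_fin_two g.val, Matrix.mul_fin_two,
    Matrix.mul_fin_two]
  ext i j
  fin_cases i <;> fin_cases j
  · simp
  · simp [mul_comm]
  · simp [mul_comm]
  · simp only [Matrix.of_apply, Matrix.cons_val', Matrix.cons_val_zero, Matrix.cons_val_one]
    simp only [Fin.mk_one, Fin.isValue, Matrix.cons_val_one, Matrix.cons_val_fin_one]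
    linear_combination (g.val 0 0) * h3

include hτ in
lemma tau_inv_lt {x : F} (hx : v x ≤ 1) : v ((↑τ⁻¹ : F) * x) < 1 := by
  rw [map_mul, Units.val_inv_eq_inv_val, map_inv₀, hτ, ← WithZero.exp_neg]
  refine lt_of_le_of_lt (mul_le_of_le_one_right' hx) ?_
  rw [← WithZero.exp_zero, WithZero.exp_lt_exp]; norm_num

include hτ in
lemma mem_of_conj {g g' : GL (Fin 2) F} (hg : g ∈ I0 v)
    (h : g'.val = !![g.val 1 1, (↑τ⁻¹ : F) * g.val 1 0; g.val 0 1 * τ, g.val 0 0]) :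
    g' ∈ I0 v ∧ phi v τ g' = phi v τ g := by
  obtain ⟨ha, hd⟩ := I0_diag v hg
  have h01 := le_of_lt_tau v τ hτ hg.2
  have h10 := tau_inv_lt v τ hτ (hg.1.1 1 0)
  refine ⟨⟨glInt_of_det v ?_ ?_, ?_⟩, ?_⟩
  · intro i j
    rw [h]
    fin_cases i <;> fin_cases j
    exacts [hg.1.1 1 1, h10.le, h01, hg.1.1 0 0]
  · rw [h, Matrix.det_fin_two_of]
    have e : g.val 1 1 * g.val 0 0 - (↑τ⁻¹ : F) * g.val 1 0 * (g.val 0 1 * τ) = g.val.det := by
      rw [Matrix.det_fin_two]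
      have : (↑τ⁻¹ : F) * τ = 1 := by simp
      linear_combination (- g.val 1 0 * g.val 0 1) * this
    rw [e, det_unit v hg.1]
  · rw [h]; exact h10
  · unfold phi
    rw [h]
    have e : (!![g.val 1 1, (↑τ⁻¹ : F) * g.val 1 0; g.val 0 1 * τ, g.val 0 0] : Matrix _ _ F) 1 0
      = g.val 0 1 * τ := rfl
    have e' : (!![g.val 1 1, (↑τ⁻¹ : F) * g.val 1 0; g.val 0 1 * τ, g.val 0 0] : Matrix _ _ F) 0 1
      = (↑τ⁻¹ : F) * g.val 1 0 := rfl
    rw [e, e']
    have e2 : (↑τ⁻¹ : F) * g.val 1 0 * (τ : F) = g.val 1 0 := by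
      have : (↑τ⁻¹ : F) * τ = 1 := by simp
      linear_combination (g.val 1 0) * this
    rw [e2, mul_comm]

include hτ in
lemma conj_mem {g : GL (Fin 2) F} (hg : g ∈ I0 v) :
    (eta τ)⁻¹ * g * eta τ ∈ I0 v ∧ phi v τ ((eta τ)⁻¹ * g * eta τ) = phi v τ g :=
  mem_of_conj v τ hτ hg (eta_conj_val τ g)

include hτ in
lemma conj_mem' {g : GL (Fin 2) F} (hg : g ∈ I0 v) :
    eta τ * g * (eta τ)⁻¹ ∈ I0 v ∧ phi v τ (eta τ * g * (eta τ)⁻¹) = phi v τ g :=
  mem_of_conj v τ hτ hg (eta_conj_val' τ g)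

include hτ in
lemma conj_zpow_mem (j : ℤ) : ∀ {g : GL (Fin 2) F}, g ∈ I0 v →
    (eta τ) ^ j * g * (eta τ) ^ (-j) ∈ I0 v ∧
      phi v τ ((eta τ) ^ j * g * (eta τ) ^ (-j)) = phi v τ g := by
  induction j using Int.induction_on with
  | zero => intro g hg; simpa using hg
  | succ n ih =>
    intro g hg
    obtain ⟨h1, h2⟩ := ih hg
    obtain ⟨h3, h4⟩ := conj_mem' v τ hτ h1
    have e : (eta τ) ^ ((n : ℤ) + 1) * g * (eta τ) ^ (-((n : ℤ) + 1)) =
        eta τ * ((eta τ) ^ (n : ℤ) * g * (eta τ) ^ (-(n : ℤ))) * (eta τ)⁻¹ := by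
      group
    rw [e]
    exact ⟨h3, h4.trans h2⟩
  | pred n ih =>
    intro g hg
    obtain ⟨h1, h2⟩ := ih hg
    obtain ⟨h3, h4⟩ := conj_mem v τ hτ h1
    have e : (eta τ) ^ (-(n : ℤ) - 1) * g * (eta τ) ^ (-(-(n : ℤ) - 1)) =
        (eta τ)⁻¹ * ((eta τ) ^ (-(n : ℤ)) * g * (eta τ) ^ (-(-(n : ℤ)))) * eta τ := by
      group
    rw [e]
    exact ⟨h3, h4.trans h2⟩

lemma eta_det : (eta τ).val.det = -(τ : F) := by
  change (!![0, 1; (τ : F), 0] : Matrix _ _ F).det = _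
  rw [Matrix.det_fin_two_of]; ring

include hτ in
lemma val_det_zpow (j : ℤ) : v ((eta τ ^ j).val.det) = WithZero.exp j := by
  have h : ((eta τ ^ j).val.det) = ((Matrix.GeneralLinearGroup.det (eta τ ^ j) : Fˣ) : F) := rfl
  rw [h, map_zpow, Units.val_zpow_eq_zpow_val, map_zpow₀]
  have h2 : ((Matrix.GeneralLinearGroup.det (eta τ) : Fˣ) : F) = -(τ : F) := eta_det τ
  rw [h2, Valuation.map_neg, hτ, ← WithZero.exp_zsmul, smul_eq_mul, mul_one]

end loc

end N718LL
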