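import Pool.Agent.N718.LL.TaskF1a

/-!
# LL/12: an explicit cusp form on `GL_2(A)`, `F_2(t)`, level `(t)^2 ∞`
-/

open scoped WithZero Polynomial MatrixGroups Topology
open IsDedekindDomain RestrictedProduct

noncomputable section

namespace N718LL

open N589LL

/-- the place `t = 0` -/
abbrev z0 : Place := some p0

/-- `1/t` as a unit of `K`. -/
def tauK : Kˣ := Units.mk0 (RatFunc.X : K)⁻¹ (inv_ne_zero RatFunc.X_ne_zero)

/-- `1/t` as a unit of `K_v`. -/
def tau (v : Place) : (Kv v)ˣ := Units.map (incl v).toMonoidHom tauK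

@[simp] lemma tau_val (v : Place) : (tau v : Kv v) = incl v (RatFunc.X : K)⁻¹ := rfl

lemma tau_none : tau none = piInf := by
  ext
  simp [piInf, tInf]

/-- `η = (0, 1; 1/t, 0)` in `GL_2(K)`. -/
def etaK : GL (Fin 2) K := eta tauK

lemma glIncl_etaK (v : Place) : glIncl v etaK = eta (tau v) := by
  ext i j
  change incl v (etaK.val i j) = (eta (tau v)).val i j
  have h1 : etaK.val = !![0, 1; (tauK : K), 0] := rfl
  have h2 : (eta (tau v)).val = !![0, 1; (tau v : Kv v), 0] := rfl
  rw [h1, h2]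
  fin_cases i <;> fin_cases j <;> simp [tauK]

lemma pv_X_p0 : pv z0 (RatFunc.X : K) = WithZero.exp (-1) := by
  have h : (RatFunc.X : K) = algebraMap A K Polynomial.X := (RatFunc.algebraMap_X).symm
  rw [h]
  change p0.valuation K (algebraMap A K Polynomial.X) = _
  rw [HeightOneSpectrum.valuation_of_algebraMap]
  exact HeightOneSpectrum.intValuation_singleton _ Polynomial.X_ne_zero rfl

lemma pv_X_none : pv none (RatFunc.X : K) = WithZero.exp 1 := by
  simp [pv]

lemma pv_X_of_ne {v : HeightOneSpectrum A} (hv : v ≠ p0) : pv (some v) (RatFunc.X : K) = 1 := by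
  have h : (RatFunc.X : K) = algebraMap A K Polynomial.X := (RatFunc.algebraMap_X).symm
  rw [h]
  change v.valuation K (algebraMap A K Polynomial.X) = _
  rw [HeightOneSpectrum.valuation_of_algebraMap]
  refine le_antisymm (HeightOneSpectrum.intValuation_le_one _ _) ?_
  by_contra hlt
  push Not at hlt
  rw [HeightOneSpectrum.intValuation_lt_one_iff_mem] at hlt
  apply hv
  have h1 : p0.asIdeal ≤ v.asIdeal := by
    change Ideal.span {Polynomial.X} ≤ _
    rw [Ideal.span_singleton_le_iff_mem]; exact hlt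
  have hmax : p0.asIdeal.IsMaximal := p0.isMaximal
  have := hmax.eq_of_le v.isPrime.ne_top h1
  exact (HeightOneSpectrum.ext this).symm

lemma val_tau_z0 : val z0 (tau z0 : Kv z0) = WithZero.exp 1 := by
  rw [tau_val, val_incl, map_inv₀, pv_X_p0, ← WithZero.exp_neg, neg_neg]

lemma val_tau_none : val none (tau none : Kv none) = WithZero.exp (-1) := by
  rw [tau_val, val_incl, map_inv₀, pv_X_none, ← WithZero.exp_neg]

lemma val_tau_of_ne {v : Place} (h0 : v ≠ z0) (hi : v ≠ none) : val v (tau v : Kv v) = 1 := by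
  rcases v with _ | v
  · exact absurd rfl hi
  · have hv : v ≠ p0 := fun h => h0 (by rw [h])
    rw [tau_val, val_incl, map_inv₀, pv_X_of_ne hv, inv_one]

/-- `η` at the place `0`. -/
abbrev eta0 : Gv z0 := eta (tau z0)

/-- the character at the place `0` -/
abbrev ph (g : Gv z0) : ℂ := phi (val z0) (tau z0) g

/-- The relation defining the cusp form: `f g = s`. -/
structure Wit (g : GA) (s : ℂ) (γ : GL (Fin 2) K) (j : ℤ) : Prop where
  fin : ∀ v, v ≠ z0 → glIncl v γ * g v ∈ Cv v
  inf : glIncl none γ * g none ∈ Iw (val none)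
  zer : eta0 ^ j * (glIncl z0 γ * g z0) ∈ I0 (val z0)
  eq : s = (-1) ^ j * ph (eta0 ^ j * (glIncl z0 γ * g z0))

variable (hG : TaskGlob)

lemma det_glIncl (v : Place) (γ : GL (Fin 2) K) : (glIncl v γ).val.det = incl v γ.val.det := by
  exact (RingHom.map_det (incl v) γ.val).symm

lemma sgn_sq (n : ℤ) : ((-1 : ℂ) ^ n) * (-1) ^ n = 1 := by
  rw [← zpow_add₀ (by norm_num), ← two_mul, zpow_mul]; norm_num

include hG in
/-- key lemma: an element of `GL_2(K)` which is integral outside `0`, Iwahori at infinity and in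
`η^ℤ I_0` at `0` is one. -/
lemma key {δ : GL (Fin 2) K} {j : ℤ} (h1 : ∀ v, v ≠ z0 → glIncl v δ ∈ Cv v)
    (h3 : eta0 ^ j * glIncl z0 δ ∈ I0 (val z0)) :
    j = 0 ∧ (∀ i k, δ.val i k = 0 ∨ δ.val i k = 1) ∧ δ.val 0 1 = 0 ∧ δ.val 0 0 = 1 ∧ δ.val 1 1 = 1 := by
  obtain ⟨-, -, hc, hd⟩ := hG
  have hdet : δ.val.det = 1 := by
    refine hd _ ?_ ?_
    · have : IsUnit δ.val.det := by
        rw [← Matrix.isUnit_iff_isUnit_det]; exact δ.isUnit
      exact this.ne_zero
    · intro v hv
      have := det_unit (val v) (h1 v hv)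
      rw [det_glIncl, val_incl] at this
      exact this
  have hj : j = 0 := by
    have h4 := det_unit (val z0) h3.1
    rw [Units.val_mul, Matrix.det_mul, map_mul, val_det_zpow (val z0) (tau z0) val_tau_z0,
      det_glIncl, hdet, map_one, map_one, mul_one, ← WithZero.exp_zero, WithZero.exp_inj] at h4
    exact h4
  subst hj
  rw [zpow_zero, one_mul] at h3
  have hint : ∀ i k, δ.val i k = 0 ∨ δ.val i k = 1 := by
    intro i k
    apply hc
    intro v
    by_cases hv : v = z0
    · subst hv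
      have := h3.1.1 i k
      rw [← val_incl]; exact this
    · have := (h1 v hv).1 i k
      rw [← val_incl]; exact this
  have h01 : δ.val 0 1 = 0 := by
    rcases hint 0 1 with h | h
    · exact h
    · have h5 := h3.2
      have h6 : (glIncl z0 δ).val 0 1 = incl z0 (δ.val 0 1) := rfl
      rw [h6, h, map_one, map_one] at h5
      exact absurd h5 (lt_irrefl _)
  rw [Matrix.det_fin_two, h01, zero_mul, sub_zero] at hdet
  refine ⟨rfl, hint, h01, ?_, ?_⟩
  · rcases hint 0 0 with h | h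
    · rw [h, zero_mul] at hdet; exact absurd hdet zero_ne_one
    · exact h
  · rcases hint 1 1 with h | h
    · rw [h, mul_zero] at hdet; exact absurd hdet zero_ne_one
    · exact h

include hG in
lemma wit_unique {g : GA} {s s' : ℂ} {γ γ' : GL (Fin 2) K} {j j' : ℤ} (h : Wit g s γ j)
    (h' : Wit g s' γ' j') : s = s' := by
  obtain ⟨hr1, hr0, hc, hd⟩ := id hG
  have e0 : ∀ v, glIncl v (γ' * γ⁻¹) = (glIncl v γ' * g v) * (glIncl v γ * g v)⁻¹ := by
    intro v; rw [map_mul, map_inv]; group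
  set w := eta0 ^ j * (glIncl z0 γ * g z0) with hw
  set w' := eta0 ^ j' * (glIncl z0 γ' * g z0) with hw'
  have e1 : glIncl z0 (γ' * γ⁻¹) = eta0 ^ (-j') * (w' * w⁻¹) * eta0 ^ j := by
    rw [e0, hw, hw']; group
  have e2 : eta0 ^ (j' - j) * glIncl z0 (γ' * γ⁻¹) = eta0 ^ (-j) * (w' * w⁻¹) * eta0 ^ (-(-j)) := by
    rw [e1]; group
  have hww : w' * w⁻¹ ∈ I0 (val z0) := mul_mem h'.zer (inv_mem h.zer)
  have h3 : eta0 ^ (j' - j) * glIncl z0 (γ' * γ⁻¹) ∈ I0 (val z0) := by
    rw [e2]; exact (conj_zpow_mem _ _ val_tau_z0 (-j) hww).1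
  have h3' := (conj_zpow_mem _ _ val_tau_z0 (-j) hww).2
  obtain ⟨hj, hint, h01, h00, h11⟩ := key hG (δ := γ' * γ⁻¹) (j := j' - j)
    (fun v hv => by rw [e0]; exact mul_mem (h'.fin v hv) (inv_mem (h.fin v hv))) h3
  have h10 : (γ' * γ⁻¹).val 1 0 = 0 := by
    rcases hint 1 0 with h5 | h5
    · exact h5
    · have h6 : glIncl none (γ' * γ⁻¹) ∈ Iw (val none) := by
        rw [e0]; exact mul_mem h'.inf (inv_mem h.inf)
      have h7 := h6.2
      have h8 : (glIncl none (γ' * γ⁻¹)).val 1 0 = incl none ((γ' * γ⁻¹).val 1 0) := rfl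
      rw [h8, h5, map_one, map_one] at h7
      exact absurd h7 (lt_irrefl _)
  have hone : γ' * γ⁻¹ = 1 := by
    ext i k
    fin_cases i <;> fin_cases k
    · simpa using h00
    · simpa using h01
    · simpa using h10
    · simpa using h11
  have hjj : j' = j := by omega
  rw [← e2, hone, map_one, hjj, sub_self, zpow_zero, one_mul, phi_one] at h3'
  rw [phi_mul _ hr0 _ val_tau_z0 h'.zer (inv_mem h.zer), phi_inv _ hr0 _ val_tau_z0 h.zer] at h3'
  rw [h.eq, h'.eq, ← hw, ← hw', hjj]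
  congr 1
  have h9 := phi_sq (val z0) (tau z0) w
  calc ph w = (ph w' * ph w) * ph w := by rw [← h3', one_mul]
    _ = ph w' * (ph w * ph w) := by ring
    _ = ph w' := by rw [h9, mul_one]

open Classical in
/-- The cusp form. -/
def f1 (g : GA) : ℂ := if h : ∃ s γ j, Wit g s γ j then h.choose else 0

include hG in
lemma f1_eq {g : GA} {s : ℂ} {γ : GL (Fin 2) K} {j : ℤ} (h : Wit g s γ j) : f1 g = s := by
  have hex : ∃ s γ j, Wit g s γ j := ⟨s, γ, j, h⟩
  unfold f1
  rw [dif_pos hex]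
  obtain ⟨γ', j', h'⟩ := hex.choose_spec
  exact wit_unique hG h' h

lemma f1_zero {g : GA} (h : ¬ ∃ s γ j, Wit g s γ j) : f1 g = 0 := by
  unfold f1; rw [dif_neg h]

include hG in
/-- General comparison: if witnesses for `g` and `g'` correspond with a factor `c`. -/
lemma f1_compare {g g' : GA} {c c' : ℂ} (_ : c' * c = 1)
    (h1 : ∀ s γ j, Wit g s γ j → ∃ γ' j', Wit g' (c * s) γ' j')
    (h2 : ∀ s γ j, Wit g' s γ j → ∃ γ' j', Wit g (c' * s) γ' j') :
    f1 g' = c * f1 g := by
  by_cases h : ∃ s γ j, Wit g s γ j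
  · obtain ⟨s, γ, j, hw⟩ := h
    obtain ⟨γ', j', hw'⟩ := h1 s γ j hw
    rw [f1_eq hG hw, f1_eq hG hw']
  · have h' : ¬ ∃ s γ j, Wit g' s γ j := by
      rintro ⟨s, γ, j, hw⟩
      obtain ⟨γ', j', hw'⟩ := h2 s γ j hw
      exact h ⟨_, _, _, hw'⟩
    rw [f1_zero h, f1_zero h', mul_zero]

include hG in
lemma f1_left (γ₀ : GL (Fin 2) K) (g : GA) : f1 (diag γ₀ * g) = f1 g := by
  have main : ∀ (δ : GL (Fin 2) K) (g : GA) s γ j, Wit g s γ j →
      Wit (diag δ * g) s (γ * δ⁻¹) j := by
    intro δ g s γ j h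
    have e : ∀ v, glIncl v (γ * δ⁻¹) * (diag δ * g) v = glIncl v γ * g v := by
      intro v
      rw [RestrictedProduct.mul_apply, diag_apply, map_mul, map_inv]; group
    refine ⟨fun v hv => ?_, ?_, ?_, ?_⟩
    · rw [e]; exact h.fin v hv
    · rw [e]; exact h.inf
    · rw [e]; exact h.zer
    · rw [e]; exact h.eq
  have := f1_compare hG (g := g) (g' := diag γ₀ * g) (c := 1) (c' := 1) (by norm_num)
    (fun s γ j h => ⟨_, _, by rw [one_mul]; exact main γ₀ g s γ j h⟩)
    (fun s γ j h => ⟨_, _, by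
      rw [one_mul]
      have := main γ₀⁻¹ _ s γ j h
      rw [← mul_assoc, ← map_mul, inv_mul_cancel, map_one, one_mul] at this
      exact this⟩)
  rw [this, one_mul]

/-- The open subgroup. -/
structure InU (u : GA) : Prop where
  fin : ∀ v, u v ∈ Cv v
  inf : u none ∈ Iw (val none)
  zer : u z0 ∈ I0 (val z0)

lemma InU.inv {u : GA} (h : InU u) : InU u⁻¹ :=
  ⟨fun v => by rw [RestrictedProduct.inv_apply]; exact inv_mem (h.fin v),
    by rw [RestrictedProduct.inv_apply]; exact inv_mem h.inf,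
    by rw [RestrictedProduct.inv_apply]; exact inv_mem h.zer⟩

include hG in
lemma f1_right {u : GA} (hu : InU u) (g : GA) : f1 (g * u) = ph (u z0) * f1 g := by
  obtain ⟨hr1, hr0, hc, hd⟩ := id hG
  have main : ∀ (u : GA) (_ : InU u) (g : GA) s γ j, Wit g s γ j →
      Wit (g * u) (ph (u z0) * s) γ j := by
    intro u hu g s γ j h
    have e : ∀ v, glIncl v γ * (g * u) v = glIncl v γ * g v * u v := by
      intro v
      rw [RestrictedProduct.mul_apply]; group
    refine ⟨fun v hv => ?_, ?_, ?_, ?_⟩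
    · rw [e]; exact mul_mem (h.fin v hv) (hu.fin v)
    · rw [e]; exact mul_mem h.inf hu.inf
    · rw [e, ← mul_assoc]; exact mul_mem h.zer hu.zer
    · have h7 : ph (eta0 ^ j * (glIncl z0 γ * g z0) * u z0) =
          ph (eta0 ^ j * (glIncl z0 γ * g z0)) * ph (u z0) :=
        phi_mul _ hr0 _ val_tau_z0 h.zer hu.zer
      rw [e, ← mul_assoc, h7, h.eq]; ring
  have hinv : ph (u⁻¹ z0) = ph (u z0) := by
    rw [RestrictedProduct.inv_apply]; exact phi_inv _ hr0 _ val_tau_z0 hu.zer
  refine f1_compare hG (c := ph (u z0)) (c' := ph (u z0)) (phi_sq _ _ _)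
    (fun s γ j h => ⟨_, _, main u hu g s γ j h⟩)
    (fun s γ j h => ⟨γ, j, ?_⟩)
  have := main u⁻¹ hu.inv _ s γ j h
  rw [mul_assoc, mul_inv_cancel, mul_one, hinv] at this
  exact this

lemma sing_same (v : Place) (x : Gv v) : sing v x v = x := by
  classical
  exact RestrictedProduct.mulSingle_eq_same ..

lemma sing_ne {v w : Place} (x : Gv v) (h : w ≠ v) : sing v x w = 1 := by
  classical
  exact RestrictedProduct.mulSingle_eq_of_ne _ _ h

include hG in
lemma f1_eta0_zpow (n : ℤ) (g : GA) : f1 (g * sing z0 (eta0 ^ n)) = (-1) ^ n * f1 g := by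
  have main : ∀ (n : ℤ) (g : GA) s γ j, Wit g s γ j →
      Wit (g * sing z0 (eta0 ^ n)) ((-1) ^ n * s) γ (j - n) := by
    intro n g s γ j h
    have e : ∀ v, v ≠ z0 → glIncl v γ * (g * sing z0 (eta0 ^ n)) v = glIncl v γ * g v := by
      intro v hv
      rw [RestrictedProduct.mul_apply, sing_ne _ hv, mul_one]
    have e0 : eta0 ^ (j - n) * (glIncl z0 γ * (g * sing z0 (eta0 ^ n)) z0) =
        eta0 ^ (-n) * (eta0 ^ j * (glIncl z0 γ * g z0)) * eta0 ^ (-(-n)) := by
      rw [RestrictedProduct.mul_apply, sing_same]; group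
    refine ⟨fun v hv => ?_, ?_, ?_, ?_⟩
    · rw [e v hv]; exact h.fin v hv
    · rw [e none (by simp)]; exact h.inf
    · rw [e0]; exact (conj_zpow_mem _ _ val_tau_z0 (-n) h.zer).1
    · rw [e0, ph, (conj_zpow_mem _ _ val_tau_z0 (-n) h.zer).2, h.eq]
      have : ((-1 : ℂ) ^ n) * (-1) ^ n = 1 := sgn_sq n
      rw [zpow_sub₀ (by norm_num)]
      have h5 : ((-1 : ℂ) ^ n)⁻¹ = (-1) ^ n := inv_eq_of_mul_eq_one_right this
      rw [div_eq_mul_inv, h5]; ring
  refine f1_compare hG (c := (-1) ^ n) (c' := (-1) ^ n) (sgn_sq n)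
    (fun s γ j h => ⟨_, _, main n g s γ j h⟩)
    (fun s γ j h => ⟨γ, j - (-n), ?_⟩)
  have := main (-n) _ s γ j h
  rw [mul_assoc, ← map_mul, ← zpow_add, add_neg_cancel, zpow_zero, map_one, mul_one] at this
  have h5 : ((-1 : ℂ) ^ (-n)) = (-1) ^ n := by
    rw [zpow_neg]
    exact inv_eq_of_mul_eq_one_right (sgn_sq n)
  rw [h5] at this
  exact this


lemma Iw_conj {F : Type} [Field F] (v : Valuation F ℤᵐ⁰) {τ : Fˣ} (hτ : v τ = WithZero.exp (-1))
    {g g' : GL (Fin 2) F} (hg : g ∈ Iw v)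
    (h : g'.val = !![g.val 1 1, (↑τ⁻¹ : F) * g.val 1 0; g.val 0 1 * τ, g.val 0 0]) :
    g' ∈ Iw v := by
  have h10 : v ((↑τ⁻¹ : F) * g.val 1 0) ≤ 1 := by
    have := le_of_lt_tau v τ⁻¹ (by
      rw [Units.val_inv_eq_inv_val, map_inv₀, hτ, ← WithZero.exp_neg, neg_neg]) hg.2
    rwa [mul_comm] at this
  have h01 : v (g.val 0 1 * τ) < 1 := by
    rw [map_mul, hτ]
    refine lt_of_le_of_lt (mul_le_of_le_one_left' (hg.1.1 0 1)) ?_
    rw [← WithZero.exp_zero, WithZero.exp_lt_exp]; norm_num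
  refine ⟨glInt_of_det v ?_ ?_, ?_⟩
  · intro i j
    rw [h]
    fin_cases i <;> fin_cases j
    exacts [hg.1.1 1 1, h10, h01.le, hg.1.1 0 0]
  · rw [h, Matrix.det_fin_two_of]
    have e : g.val 1 1 * g.val 0 0 - (↑τ⁻¹ : F) * g.val 1 0 * (g.val 0 1 * τ) = g.val.det := by
      rw [Matrix.det_fin_two]
      have : (↑τ⁻¹ : F) * τ = 1 := by simp
      linear_combination (- g.val 1 0 * g.val 0 1) * this
    rw [e, det_unit v hg.1]
  · rw [h]; exact h01

lemma eta_tau_mem {v : Place} (h0 : v ≠ z0) (hi : v ≠ none) : eta (tau v) ∈ Cv v := by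
  have h2 : (eta (tau v)).val = !![0, 1; (tau v : Kv v), 0] := rfl
  refine glInt_of_det _ ?_ ?_
  · intro i j
    rw [h2]
    fin_cases i <;> fin_cases j
    exacts [by simp, by simp, (val_tau_of_ne h0 hi).le, by simp]
  · rw [eta_det, Valuation.map_neg, val_tau_of_ne h0 hi]

lemma Iw_le_Cv {g : Gv none} (h : g ∈ Iw (val none)) : g ∈ Cv none := h.1

include hG in
lemma f1_eta_inf (g : GA) : f1 (g * sing none (eta (tau none))) = -f1 g := by
  have hc : (-1 : ℂ) * (-1) = 1 := by norm_num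
  rw [← neg_one_mul]
  refine f1_compare hG hc (fun s γ j h => ⟨etaK⁻¹ * γ, j + 1, ?_⟩)
    (fun s γ j h => ⟨etaK * γ, j - 1, ?_⟩)
  · have einf : glIncl none (etaK⁻¹ * γ) * (g * sing none (eta (tau none))) none =
        (eta (tau none))⁻¹ * (glIncl none γ * g none) * eta (tau none) := by
      rw [RestrictedProduct.mul_apply, sing_same, map_mul, map_inv, glIncl_etaK]; group
    have hinf : glIncl none (etaK⁻¹ * γ) * (g * sing none (eta (tau none))) none ∈
        Iw (val none) := by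
      rw [einf]
      exact Iw_conj _ val_tau_none h.inf (eta_conj_val _ _)
    have ezer : eta0 ^ (j + 1) * (glIncl z0 (etaK⁻¹ * γ) * (g * sing none (eta (tau none))) z0) =
        eta0 ^ j * (glIncl z0 γ * g z0) := by
      rw [RestrictedProduct.mul_apply, sing_ne _ (by simp), map_mul, map_inv, glIncl_etaK]; group
    refine ⟨fun v hv => ?_, hinf, ?_, ?_⟩
    · by_cases hi : v = none
      · subst hi; exact Iw_le_Cv hinf
      · rw [RestrictedProduct.mul_apply, sing_ne _ hi, map_mul, map_inv, glIncl_etaK, mul_one,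
          mul_assoc]
        exact mul_mem (inv_mem (eta_tau_mem hv hi)) (h.fin v hv)
    · rw [ezer]; exact h.zer
    · rw [ezer, h.eq, zpow_add₀ (by norm_num)]; ring
  · have einf : glIncl none (etaK * γ) * g none =
        (eta (tau none)) * (glIncl none γ * (g * sing none (eta (tau none))) none) *
          (eta (tau none))⁻¹ := by
      rw [RestrictedProduct.mul_apply, sing_same, map_mul, glIncl_etaK]; group
    have hinf : glIncl none (etaK * γ) * g none ∈ Iw (val none) := by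
      rw [einf]
      exact Iw_conj _ val_tau_none h.inf (eta_conj_val' _ _)
    have ezer : eta0 ^ (j - 1) * (glIncl z0 (etaK * γ) * g z0) =
        eta0 ^ j * (glIncl z0 γ * (g * sing none (eta (tau none))) z0) := by
      rw [RestrictedProduct.mul_apply, sing_ne _ (by simp), map_mul, glIncl_etaK]; group
    refine ⟨fun v hv => ?_, hinf, ?_, ?_⟩
    · by_cases hi : v = none
      · subst hi; exact Iw_le_Cv hinf
      · have := h.fin v hv
        rw [RestrictedProduct.mul_apply, sing_ne _ hi, mul_one] at this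
        rw [map_mul, glIncl_etaK, mul_assoc]
        exact mul_mem (eta_tau_mem hv hi) this
    · rw [ezer]; exact h.zer
    · rw [ezer, h.eq, zpow_sub₀ (by norm_num)]; ring

/-- A sufficient condition for `sing none x` to be in `U`. -/
lemma InU_sing {x : Gv none} (hx : x ∈ Iw (val none)) : InU (sing none x) := by
  refine ⟨fun v => ?_, by rw [sing_same]; exact hx, by rw [sing_ne _ (by simp)]; exact one_mem _⟩
  by_cases hi : v = none
  · subst hi; rw [sing_same]; exact hx.1
  · rw [sing_ne _ hi]; exact one_mem _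

include hG in
lemma f1_Iw {x : Gv none} (hx : x ∈ Iw (val none)) (g : GA) : f1 (g * sing none x) = f1 g := by
  have h1 : ph 1 = 1 := phi_one _ _
  rw [f1_right hG (InU_sing hx), sing_ne _ (by simp), h1, one_mul]

/-- the elements of `GL_2(K_∞)` fixing `f1`. -/
def stab : Subgroup (Gv none) where
  carrier := {x | ∀ g, f1 (g * sing none x) = f1 g}
  mul_mem' := by
    intro a b ha hb g
    rw [map_mul, ← mul_assoc, hb, ha]
  one_mem' := by intro g; rw [map_one, mul_one]
  inv_mem' := by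
    intro a ha g
    have := ha (g * sing none a⁻¹)
    rw [mul_assoc, ← map_mul, inv_mul_cancel, map_one, mul_one] at this
    exact this.symm

lemma sca_mul {F : Type} [Field F] (a b : Fˣ) : sca (a * b) = sca a * sca b := by
  ext i j
  have h : ∀ z : Fˣ, (sca z).val = !![(z : F), 0; 0, (z : F)] := fun _ => rfl
  rw [Units.val_mul, h, h, h, Matrix.mul_fin_two]
  fin_cases i <;> fin_cases j <;> simp

lemma sca_one {F : Type} [Field F] : sca (1 : Fˣ) = 1 := by
  ext i j
  have h : ∀ z : Fˣ, (sca z).val = !![(z : F), 0; 0, (z : F)] := fun _ => rfl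
  rw [h]
  fin_cases i <;> fin_cases j <;> simp

/-- scalars as a homomorphism -/
def scaHom (F : Type) [Field F] : Fˣ →* GL (Fin 2) F where
  toFun := sca
  map_one' := sca_one
  map_mul' := sca_mul

lemma eta_sq {F : Type} [Field F] (τ : Fˣ) : eta τ * eta τ = sca τ := by
  ext i j
  have h : (sca τ).val = !![(τ : F), 0; 0, (τ : F)] := rfl
  have h2 : (eta τ).val = !![0, 1; (τ : F), 0] := rfl
  rw [Units.val_mul, h, h2, Matrix.mul_fin_two]
  fin_cases i <;> fin_cases j <;> simp

include hG in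
lemma f1_sca (z : (Kv none)ˣ) (g : GA) : f1 (g * sing none (sca z)) = f1 g := by
  have h1 : sca (tau none) ∈ stab := by
    intro g
    rw [← eta_sq, map_mul, ← mul_assoc, f1_eta_inf hG, f1_eta_inf hG, neg_neg]
  have h2 : ∀ u : (Kv none)ˣ, val none (u : Kv none) = 1 → sca u ∈ stab := by
    intro u hu g
    refine f1_Iw hG ⟨glInt_of_det _ ?_ ?_, ?_⟩ g
    · intro i j
      change val none ((!![(u : Kv none), 0; 0, (u : Kv none)] : Matrix _ _ _) i j) ≤ 1
      fin_cases i <;> fin_cases j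
      exacts [hu.le, by simp, by simp, hu.le]
    · change val none (Matrix.det !![(u : Kv none), 0; 0, (u : Kv none)]) = 1
      rw [Matrix.det_fin_two_of]; simp [hu]
    · change val none ((!![(u : Kv none), 0; 0, (u : Kv none)] : Matrix _ _ _) 1 0) < 1
      simp
  have h3 : sca z ∈ stab := by
    set n : ℤ := WithZero.log (val none (z : Kv none)) with hn
    have hz : val none (z : Kv none) ≠ 0 := by simp
    have e : z = (tau none) ^ (-n) * ((tau none) ^ n * z) := by group
    rw [e, sca_mul]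
    refine mul_mem ?_ (h2 _ ?_)
    · have : sca ((tau none) ^ (-n)) = (sca (tau none)) ^ (-n) :=
        map_zpow (scaHom (Kv none)) (tau none) (-n)
      rw [this]
      exact zpow_mem h1 _
    · rw [Units.val_mul, map_mul, Units.val_zpow_eq_zpow_val, map_zpow₀, val_tau_none,
        ← WithZero.exp_zsmul, smul_eq_mul, mul_neg, mul_one]
      have hz' : val none (z : Kv none) = WithZero.exp n := (WithZero.exp_log hz).symm
      rw [hz', ← WithZero.exp_add, neg_add_cancel, WithZero.exp_zero]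
  exact h3 g

lemma wit_one : Wit 1 1 1 0 := by
  refine ⟨fun v _ => ?_, ?_, ?_, ?_⟩
  · rw [map_one, one_mul, RestrictedProduct.one_apply]; exact one_mem _
  · rw [map_one, one_mul, RestrictedProduct.one_apply]; exact one_mem _
  · rw [map_one, one_mul, RestrictedProduct.one_apply, zpow_zero, mul_one]; exact one_mem _
  · rw [map_one, one_mul, RestrictedProduct.one_apply, zpow_zero, zpow_zero, mul_one, ph, phi_one,
      mul_one]

include hG in
lemma f1_one : f1 1 = 1 := f1_eq hG wit_one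

include hG in
lemma F_A {x : Gv none} (hx : x ∈ Cv none) (h : val none (x.val 1 0) < 1) :
    f1 (sing none x) = 1 := by
  have := f1_Iw hG (x := x) ⟨hx, h⟩ 1
  rw [one_mul] at this
  rw [this, f1_one hG]

lemma lwr_mul {F : Type} [Field F] (a b : F) : (lwr (a + b) : GL (Fin 2) F) = lwr a * lwr b := by
  ext i j
  have h : ∀ z : F, (lwr z).val = !![1, 0; z, 1] := fun _ => rfl
  rw [Units.val_mul, h, h, h, Matrix.mul_fin_two]
  fin_cases i <;> fin_cases j <;> simp

lemma glIncl_lwr (v : Place) (x : K) : glIncl v (lwr x) = lwr (incl v x) := by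
  ext i j
  change incl v ((lwr x).val i j) = (lwr (incl v x)).val i j
  have h : ∀ (F : Type) [Field F] (z : F), (lwr z).val = !![1, 0; z, 1] := fun _ _ _ => rfl
  rw [h, h]
  fin_cases i <;> fin_cases j <;> simp

lemma lwr_int {F : Type} [Field F] (v : Valuation F ℤᵐ⁰) {x : F} (hx : v x ≤ 1) :
    lwr x ∈ glInt v := by
  have h : (lwr x).val = !![1, 0; x, 1] := rfl
  refine glInt_of_det v ?_ ?_
  · intro i j
    rw [h]
    fin_cases i <;> fin_cases j
    exacts [by simp, by simp, hx, by simp]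
  · rw [h, Matrix.det_fin_two_of]; simp

include hG in
lemma F_C {x : Gv none} (hx : x ∈ Cv none) (h : ¬ val none (x.val 1 0) < 1)
    (h' : ¬ val none (x.val 0 0) < 1) : f1 (sing none x) = -1 := by
  obtain ⟨hr1, hr0, -, -⟩ := id hG
  have hm : ∀ v, val v (-1 : Kv v) = 1 := fun v => by rw [Valuation.map_neg, map_one]
  have hl : ∀ v, glIncl v (lwr (-1 : K)) = lwr (-1 : Kv v) := fun v => by
    rw [glIncl_lwr, map_neg, map_one]
  have hlv : ∀ v, glIncl v (lwr (-1 : K)) ∈ Cv v := fun v => by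
    rw [hl]; exact lwr_int _ (hm v).le
  have hz : eta0 ^ (0 : ℤ) * (glIncl z0 (lwr (-1 : K)) * (sing none x) z0) = lwr (-1) := by
    rw [sing_ne _ (by simp), zpow_zero, one_mul, mul_one, hl]
  have hval : (lwr (-1 : Kv z0)).val = !![1, 0; -1, 1] := rfl
  refine f1_eq hG (γ := lwr (-1)) (j := 0) ⟨fun v hv => ?_, ?_, ?_, ?_⟩
  · by_cases hi : v = none
    · subst hi; rw [sing_same]; exact mul_mem (hlv none) hx
    · rw [sing_ne _ hi, mul_one]; exact hlv v
  · rw [sing_same]
    refine ⟨mul_mem (hlv none) hx, ?_⟩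
    have e : (glIncl none (lwr (-1 : K)) * x).val 1 0 = (x.val 1 0 - 1) - (x.val 0 0 - 1) := by
      rw [hl, Units.val_mul]
      have : (lwr (-1 : Kv none)).val = !![1, 0; -1, 1] := rfl
      rw [this, Matrix.mul_apply, Fin.sum_univ_two]
      simp only [Fin.isValue, Matrix.of_apply, Matrix.cons_val', Matrix.cons_val_zero,
        Matrix.cons_val_one, Matrix.cons_val_fin_one]
      ring
    rw [e]
    exact lt_of_le_of_lt (Valuation.map_sub _ _ _)
      (max_lt ((hr1 _ (hx.1 1 0)).resolve_left h) ((hr1 _ (hx.1 0 0)).resolve_left h'))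
  · rw [hz]
    refine ⟨lwr_int _ (hm z0).le, ?_⟩
    rw [hval]; simp
  · rw [hz, ph, phi, hval]
    simp [psi]

include hG in
lemma F_B {x : Gv none} (hx : x ∈ Cv none) (h : val none (x.val 0 0) < 1) :
    f1 (sing none x) = 0 := by
  apply f1_zero
  rintro ⟨s, γ, j, hw⟩
  have h1 : ∀ v, v ≠ z0 → glIncl v γ ∈ Cv v := by
    intro v hv
    have h2 := hw.fin v hv
    by_cases hi : v = none
    · subst hi
      rw [sing_same] at h2
      have := mul_mem h2 (inv_mem hx)
      rwa [mul_inv_cancel_right] at this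
    · rwa [sing_ne _ hi, mul_one] at h2
  have h3 := hw.zer
  rw [sing_ne _ (by simp), mul_one] at h3
  obtain ⟨-, hint, h01, h00, h11⟩ := key hG h1 h3
  have h4 := hw.inf.2
  rw [sing_same] at h4
  have e : (glIncl none γ * x).val 1 0 = incl none (γ.val 1 0) * x.val 0 0 + x.val 1 0 := by
    rw [Units.val_mul, Matrix.mul_apply, Fin.sum_univ_two]
    have h5 : (glIncl none γ).val 1 0 = incl none (γ.val 1 0) := rfl
    have h6 : (glIncl none γ).val 1 1 = incl none (γ.val 1 1) := rfl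
    rw [h5, h6, h11, map_one, one_mul]
  rw [e] at h4
  have h7 : val none (incl none (γ.val 1 0) * x.val 0 0) < 1 := by
    rcases hint 1 0 with h8 | h8
    · rw [h8]; simp
    · rw [h8]; simpa using h
  have h9 : val none (x.val 1 0) < 1 := by
    have e2 : x.val 1 0 = (incl none (γ.val 1 0) * x.val 0 0 + x.val 1 0) -
      incl none (γ.val 1 0) * x.val 0 0 := by ring
    rw [e2]
    exact lt_of_le_of_lt (Valuation.map_sub _ _ _) (max_lt h4 h7)
  have h10 := det_unit _ hx
  rw [Matrix.det_fin_two] at h10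
  have h11 : val none (x.val 0 0 * x.val 1 1 - x.val 0 1 * x.val 1 0) < 1 := by
    refine lt_of_le_of_lt (Valuation.map_sub _ _ _) (max_lt ?_ ?_)
    · rw [map_mul]; exact lt_of_le_of_lt (mul_le_of_le_one_right' (hx.1 1 1)) h
    · rw [map_mul]; exact lt_of_le_of_lt (mul_le_of_le_one_left' (hx.1 0 1)) h9
  rw [h10] at h11
  exact lt_irrefl _ h11

/-- the function of the residues -/
def Gf (pa pc : ℂ) : ℂ := (1 + pc) / 2 + (1 - pc) * (pa - 1) / 4

include hG in
lemma F_eq {x : Gv none} (hx : x ∈ Cv none) :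
    f1 (sing none x) = Gf (psi (val none) (x.val 0 0)) (psi (val none) (x.val 1 0)) := by
  by_cases h : val none (x.val 1 0) < 1
  · rw [F_A hG hx h]; simp [Gf, psi, h]
  · by_cases h' : val none (x.val 0 0) < 1
    · rw [F_B hG hx h']; simp [Gf, psi, h, h']
    · rw [F_C hG hx h h']; simp [Gf, psi, h, h']; norm_num

lemma psi_cases {F : Type} [Field F] (v : Valuation F ℤᵐ⁰) (x : F) :
    (psi v x = 1 ∧ v x < 1) ∨ (psi v x = -1 ∧ ¬ v x < 1) := by
  by_cases h : v x < 1 <;> simp [psi, h]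

lemma psi_eq_one {F : Type} [Field F] (v : Valuation F ℤᵐ⁰) {x : F} (h : psi v x = 1) : v x < 1 := by
  rcases psi_cases v x with h' | h'
  · exact h'.2
  · rw [h'.1] at h; norm_num at h

include hG in
lemma F_sum {k : Gv none} (hk : k ∈ Cv none) :
    f1 (sing none k) + f1 (sing none (k * wm)) + f1 (sing none (k * lwr 1)) = 0 := by
  obtain ⟨hr1, -, -, -⟩ := id hG
  have hwm : (wm : Gv none) ∈ Cv none := by
    have h : (wm : Gv none).val = !![0, 1; 1, 0] := rfl
    refine glInt_of_det _ ?_ ?_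
    · intro i j
      rw [h]
      fin_cases i <;> fin_cases j <;> simp
    · rw [h, Matrix.det_fin_two_of]; simp [Valuation.map_neg]
  have hl : (lwr 1 : Gv none) ∈ Cv none := lwr_int _ (by simp)
  have hw0 : ∀ i, (k * wm).val i 0 = k.val i 1 := by
    intro i
    have h : (wm : Gv none).val = !![0, 1; 1, 0] := rfl
    rw [Units.val_mul, h, Matrix.mul_apply, Fin.sum_univ_two]; simp
  have hl0 : ∀ i, (k * lwr 1).val i 0 = k.val i 0 + k.val i 1 := by
    intro i
    have h : (lwr 1 : Gv none).val = !![1, 0; 1, 1] := rfl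
    rw [Units.val_mul, h, Matrix.mul_apply, Fin.sum_univ_two]; simp
  rw [F_eq hG hk, F_eq hG (mul_mem hk hwm), F_eq hG (mul_mem hk hl), hw0, hw0, hl0, hl0,
    psi_add _ hr1 (hk.1 0 0) (hk.1 0 1), psi_add _ hr1 (hk.1 1 0) (hk.1 1 1)]
  have hdet := det_unit _ hk
  rw [Matrix.det_fin_two] at hdet
  have n1 : ¬ (val none (k.val 0 0) < 1 ∧ val none (k.val 1 0) < 1) := by
    rintro ⟨ha, hc⟩
    have : val none (k.val 0 0 * k.val 1 1 - k.val 0 1 * k.val 1 0) < 1 := by
      refine lt_of_le_of_lt (Valuation.map_sub _ _ _) (max_lt ?_ ?_)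
      · rw [map_mul]; exact lt_of_le_of_lt (mul_le_of_le_one_right' (hk.1 1 1)) ha
      · rw [map_mul]; exact lt_of_le_of_lt (mul_le_of_le_one_left' (hk.1 0 1)) hc
    rw [hdet] at this; exact lt_irrefl _ this
  have n2 : ¬ (val none (k.val 0 1) < 1 ∧ val none (k.val 1 1) < 1) := by
    rintro ⟨hb, hd⟩
    have : val none (k.val 0 0 * k.val 1 1 - k.val 0 1 * k.val 1 0) < 1 := by
      refine lt_of_le_of_lt (Valuation.map_sub _ _ _) (max_lt ?_ ?_)
      · rw [map_mul]; exact lt_of_le_of_lt (mul_le_of_le_one_left' (hk.1 0 0)) hd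
      · rw [map_mul]; exact lt_of_le_of_lt (mul_le_of_le_one_right' (hk.1 1 0)) hb
    rw [hdet] at this; exact lt_irrefl _ this
  have n3 : ¬ (val none (k.val 0 0 + k.val 0 1) < 1 ∧ val none (k.val 1 0 + k.val 1 1) < 1) := by
    rintro ⟨hb, hd⟩
    have e : k.val 0 0 * k.val 1 1 - k.val 0 1 * k.val 1 0 =
      (k.val 0 0 + k.val 0 1) * k.val 1 1 - k.val 0 1 * (k.val 1 0 + k.val 1 1) := by ring
    have : val none (k.val 0 0 * k.val 1 1 - k.val 0 1 * k.val 1 0) < 1 := by
      rw [e]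
      refine lt_of_le_of_lt (Valuation.map_sub _ _ _) (max_lt ?_ ?_)
      · rw [map_mul]; exact lt_of_le_of_lt (mul_le_of_le_one_right' (hk.1 1 1)) hb
      · rw [map_mul]; exact lt_of_le_of_lt (mul_le_of_le_one_left' (hk.1 0 1)) hd
    rw [hdet] at this; exact lt_irrefl _ this
  have n3' : ¬ (psi (val none) (k.val 0 0) * psi (val none) (k.val 0 1) = 1 ∧
      psi (val none) (k.val 1 0) * psi (val none) (k.val 1 1) = 1) := by
    rintro ⟨h1, h2⟩
    rw [← psi_add _ hr1 (hk.1 0 0) (hk.1 0 1)] at h1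
    rw [← psi_add _ hr1 (hk.1 1 0) (hk.1 1 1)] at h2
    exact n3 ⟨psi_eq_one _ h1, psi_eq_one _ h2⟩
  rcases psi_cases (val none) (k.val 0 0) with ⟨ha, ha'⟩ | ⟨ha, ha'⟩ <;>
  rcases psi_cases (val none) (k.val 0 1) with ⟨hb, hb'⟩ | ⟨hb, hb'⟩ <;>
  rcases psi_cases (val none) (k.val 1 0) with ⟨hc, hc'⟩ | ⟨hc, hc'⟩ <;>
  rcases psi_cases (val none) (k.val 1 1) with ⟨hd, hd'⟩ | ⟨hd, hd'⟩ <;>
  rw [ha, hb, hc, hd] at n3' ⊢ <;>
  first
    | (exfalso; tauto)
    | (exfalso; apply n3'; norm_num; done)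
    | (simp only [Gf]; norm_num; done)

end N718LL
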